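import Pool.Agent.V11316.E6d

set_option autoImplicit false

/-!
# `[n] Φ_n(q)² ∣ S_n(q)` for `n ≡ 1 (mod 4)` and `[n] ∣ S_n(q)` for `n ≡ 3 (mod 4)`

`S_n(q) = ∑_{k<n} [8k-1] ((q^{-1};q⁴)_k/(q⁴;q⁴)_k)^6 (q²;q²)_{2k}/(q^{-1};q²)_{2k} q^{8k}`.
-/

namespace Pool.Agent.Results.MP_97831a_nt.QIntDivides

open Polynomial Finset

noncomputable section

/-- the indeterminate `q` -/
def q : RatFunc ℚ := RatFunc.X

/-- the `q`-integer `[m] = (1 - q^m)/(1 - q)` -/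
def qint (m : ℤ) : RatFunc ℚ := (1 - q ^ m) / (1 - q)

/-- the `q`-shifted factorial `(a;p)_k = ∏_{i<k} (1 - a p^i)` -/
def poch (a p : RatFunc ℚ) (k : ℕ) : RatFunc ℚ := ∏ i ∈ range k, (1 - a * p ^ i)

/-- `A_k(q)` -/
def A (k : ℕ) : RatFunc ℚ := poch q⁻¹ (q ^ 4) k / poch (q ^ 4) (q ^ 4) k

/-- `B_k(q)` -/
def B (k : ℕ) : RatFunc ℚ := poch (q ^ 2) (q ^ 2) (2 * k) / poch q⁻¹ (q ^ 2) (2 * k)

/-- `S_n(q) = ∑_{0 ≤ k ≤ n-1} [8k-1] A_k(q)^6 B_k(q) q^{8k}` -/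
def S (n : ℕ) : RatFunc ℚ :=
  ∑ k ∈ range n, qint (8 * k - 1) * A k ^ 6 * B k * q ^ (8 * k)

/-- the polynomial `[n] = 1 + q + ⋯ + q^{n-1}` -/
def qpoly (n : ℕ) : ℚ[X] := ∑ i ∈ range n, X ^ i

/-- `x ≡ 0 (mod P)`: in lowest terms the denominator is coprime to `P` and `P` divides the
numerator -/
def CongZero (P : ℚ[X]) (x : RatFunc ℚ) : Prop := IsCoprime x.denom P ∧ P ∣ x.num

theorem S_eq (n : ℕ) : S n = (1 - V11307.Q.q)⁻¹ * ∑ k ∈ range n, V11316.TE (-1) 0 k := by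
  rw [S, mul_sum]
  refine sum_congr rfl fun k _ => ?_
  rw [V11316.TE_neg]
  change (1 - q ^ (8 * (k : ℤ) - 1)) / (1 - q) * A k ^ 6 * B k * q ^ (8 * k) = (1 - q)⁻¹ *
    ((1 - q ^ (8 * (k : ℤ) - 1)) * A k ^ 6 * B k * q ^ (8 * k))
  rw [div_eq_mul_inv]
  ring

theorem inv_mem {d : ℕ} (hd : 1 < d) : (1 - V11307.Q.q)⁻¹ ∈ V11307.Q.R d := by
  have := V11307.Q.inv_one_sub (n := d) (k := 1) (by omega) (by
    intro h
    have := Nat.le_of_dvd one_pos h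
    omega)
  rwa [pow_one] at this

/-- For every odd `n > 1`: `S_n(q) ≡ 0 (mod [n] Φ_n(q)²)` if `n ≡ 1 (mod 4)`, and
`S_n(q) ≡ 0 (mod [n])` if `n ≡ 3 (mod 4)`. -/
theorem result (n : ℕ) (hn : Odd n) (hn1 : 1 < n) :
    (n ≡ 1 [MOD 4] → CongZero (qpoly n * cyclotomic n ℚ ^ 2) (S n)) ∧
    (n ≡ 3 [MOD 4] → CongZero (qpoly n) (S n)) := by
  have hn0 : 0 < n := hn.pos
  have hcz : ∀ P : ℚ[X], P ∣ (S n).num → CongZero P (S n) := fun P hP =>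
    ⟨((RatFunc.isCoprime_num_denom _).of_isCoprime_of_dvd_left hP).symm, hP⟩
  have h1 : ∀ d, d ∣ n → 1 < d → V11307.Q.I d 1 (S n) := by
    intro d hd hd1
    rw [S_eq]
    exact V11307.Q.I.R_mul (inv_mem hd1) (V11316.sum_cong (Or.inr rfl) hd1 hn hd)
  refine ⟨fun h => hcz _ ?_, fun _ => hcz _ (V11316.qint_dvd hn0 h1)⟩
  have h4 : n % 4 = 1 := h
  refine V11316.qint_phi_dvd (by omega) 2 h1 ?_
  rw [S_eq]
  exact V11307.Q.I.R_mul (inv_mem (by omega))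
    (V11316.sum_cong3 (Or.inr rfl) (by omega) (by omega))

end

end Pool.Agent.Results.MP_97831a_nt.QIntDivides
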